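import Mathlib
import Pool.Agent.Q29.TE.Stm

/-!
# Job REL of project TE: stabilizers modulo the kernel of a space that comes from a subfield
-/

set_option linter.unusedSectionVars false
set_option linter.unusedVariables false

namespace Pool.Agent.Q24.TE

open NumberField Module Finset Pool.Agent.H204R3.CM Pool.Agent.TH170.MF Pool.Agent.TH170.CM
  Pool.Agent.Y1.KN Pool.Agent.Q29.TD

/-- The stabilizer of an embedding modulo the kernel of a space that comes from a subfield injects
into the stabilizer of the restricted embedding. -/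
theorem t_REL : Pool.Agent.Q29.TE.S_REL := by
  intro E _ _ _ F _ S φ _ hSF
  have hex : ∀ γ : MulAction.stabilizer (Gal E) φ,
      ∃ δ : MulAction.stabilizer (Gal F) (φ.comp (algebraMap F E)), ∃ σ : ℂ ≃+* ℂ,
        (∀ ψ : E →+* ℂ, (γ : Gal E) • ψ = (σ : ℂ →+* ℂ).comp ψ) ∧
          ∀ ψ : F →+* ℂ, (δ : Gal F) • ψ = (σ : ℂ →+* ℂ).comp ψ := by
    intro γ
    obtain ⟨σ, hσ⟩ := gal_smul E (γ : Gal E)
    obtain ⟨δ, hδ⟩ := exists_gal_smul F σ
    refine ⟨⟨δ, ?_⟩, σ, hσ, hδ⟩
    rw [MulAction.mem_stabilizer_iff, hδ]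
    have h1 : (γ : Gal E) • φ = φ := MulAction.mem_stabilizer_iff.1 γ.2
    rw [hσ] at h1
    ext x
    exact RingHom.congr_fun h1 (algebraMap F E x)
  choose f g hg hf using hex
  have hker : ∀ γ γ' : MulAction.stabilizer (Gal E) φ, f γ = f γ' →
      ((γ : Gal E)⁻¹ * (γ' : Gal E)) ∈ ker0 (Gal E) S := by
    intro γ γ' h s hs x
    refine (hSF hs).2 _ _ ?_
    intro z hz
    have h1 : (γ : Gal E) • (((γ : Gal E)⁻¹ * (γ' : Gal E)) • x) = (γ' : Gal E) • x := by
      rw [mul_smul, smul_inv_smul]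
    rw [hg, hg] at h1
    have h2 := RingHom.congr_fun h1 z
    have h3 : (f γ : Gal F) • (x.comp (algebraMap F E)) =
        (f γ' : Gal F) • (x.comp (algebraMap F E)) := by rw [h]
    rw [hf, hf] at h3
    have h4 : g γ (x z) = g γ' (x z) := RingHom.congr_fun h3 ⟨z, hz⟩
    have h5 : g γ ((((γ : Gal E)⁻¹ * (γ' : Gal E)) • x) z) = g γ' (x z) := h2
    exact (g γ).injective (h5.trans h4.symm)
  have hfin : Finite (Gal F) := inferInstance
  unfold Subgroup.relIndex Subgroup.index
  refine Nat.card_le_card_of_injective (fun q => f (Quotient.out q)) ?_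
  intro q q' h
  have h1 := hker _ _ h
  rw [← Quotient.out_eq q, ← Quotient.out_eq q']
  refine Quotient.sound ?_
  rw [← Quotient.eq_iff_equiv]
  exact QuotientGroup.eq.2 (Subgroup.mem_subgroupOf.2 h1)

end Pool.Agent.Q24.TE
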